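import Pool.Agent.Y193.Sch

/-!
Boundedness and finiteness of pointed maps to affine varieties.
-/

set_option autoImplicit false

open Polynomial AlgebraicGeometry CategoryTheory

namespace Pool.Agent.Y193

variable {A : Type} [CommRing A] [Algebra ℂ A]

theorem comp_eq_iff {B : Type} [CommRing B] [Algebra ℂ B] (c : B →ₐ[ℂ] ℂ) (φ : A →ₐ[ℂ] B)
    (x : A →ₐ[ℂ] ℂ) : c.comp φ = x ↔ ∀ b, c (φ b) = x b :=
  ⟨fun h b => by rw [← h]; rfl, fun h => AlgHom.ext h⟩

theorem pointed_of_bounded {J : Ideal A} (h : BoundedModulo A J) : PointedBounded A J := by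
  intro B _ _ _ _ c x hx a
  have h1 := h B a
  have h2 : Submodule.span ℂ {b : B | ∃ φ : A →ₐ[ℂ] B, c.comp φ = x ∧ φ a = b} ≤
      Submodule.span ℂ {b : B | ∃ φ : A →ₐ[ℂ] B, ¬ J ≤ RingHom.ker φ ∧ φ a = b} := by
    refine Submodule.span_mono ?_
    rintro b ⟨φ, hφ, rfl⟩
    refine ⟨φ, fun hJ => hx fun j hj => ?_, rfl⟩
    rw [RingHom.mem_ker, ← hφ]
    change c (φ j) = 0
    rw [show φ j = 0 from hJ hj, map_zero]
  exact Submodule.finiteDimensional_of_le h2

theorem noLine_of_pointed {J : Ideal A} (h : PointedBounded A J) {x : A →ₐ[ℂ] ℂ}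
    (hx : ¬ J ≤ RingHom.ker x) : NoLine x := by
  refine noLine_of_bounded x fun a => ?_
  have h1 := h ℂ[X] (Polynomial.aeval (0 : ℂ)) x hx a
  have h2 : {b : ℂ[X] | ∃ φ : A →ₐ[ℂ] ℂ[X], (Polynomial.aeval (0 : ℂ)).comp φ = x ∧ φ a = b} =
      {f : ℂ[X] | ∃ φ : A →ₐ[ℂ] ℂ[X], (∀ b, (φ b).eval 0 = x b) ∧ φ a = f} := by
    ext f
    refine exists_congr fun φ => and_congr_left fun _ => ?_
    rw [comp_eq_iff]
    refine forall_congr' fun b => ?_
    rw [Polynomial.coe_aeval_eq_eval]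
  rwa [h2] at h1

theorem finite_of_pointed [Algebra.FiniteType ℂ A] {J : Ideal A} (h : PointedBounded A J) :
    FinitePointedMaps A J := by
  intro Y q hq y hy x hx
  obtain ⟨B, _, _, _, _, y', hy'⟩ := exists_ring (A := A) hq hy
  obtain ⟨F, hF⟩ := hy' x
  obtain ⟨N, π, hπ⟩ := Algebra.FiniteType.iff_quotient_mvPolynomial''.1
    (inferInstance : Algebra.FiniteType ℂ A)
  let a : Fin N → A := fun i => π (MvPolynomial.X i)
  have ha : MvPolynomial.aeval a = π := by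
    apply MvPolynomial.algHom_ext
    intro i
    simp [a]
  have ha' : Function.Surjective (MvPolynomial.aeval a : MvPolynomial (Fin N) ℂ →ₐ[ℂ] A) := by
    rw [ha]
    exact hπ
  have hfin : {φ : A →ₐ[ℂ] B | ∀ b, y' (φ b) = x b}.Finite := by
    refine finite_ring a ha' x (noLine_of_pointed h hx) y' _ (fun φ hφ => hφ)
      fun D _ _ _ _ γ c hc => ?_
    let W : Fin N → Submodule ℂ D := fun i =>
      Submodule.span ℂ {b : D | ∃ φ : A →ₐ[ℂ] D, c.comp φ = x ∧ φ (a i) = b}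
    have hW : ∀ i, FiniteDimensional ℂ (W i) := fun i => h D c x hx (a i)
    refine ⟨⨆ i, W i, inferInstance, fun φ hφ i => Submodule.mem_iSup_of_mem i
      (Submodule.subset_span ⟨γ.comp φ, ?_, rfl⟩)⟩
    rw [comp_eq_iff]
    intro b
    rw [AlgHom.comp_apply, hc, hφ]
  have := hfin.to_subtype
  exact Set.finite_coe_iff.1 (Finite.of_injective F hF)

theorem pointed_of_finite {J : Ideal A} (h : FinitePointedMaps A J) : PointedBounded A J := by
  intro B _ _ _ _ c x hx a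
  obtain ⟨F, hF⟩ := exists_of_ring (A := A) c x
  have h1 := (h _ _ isVariety_spec _ (point_spec c) x hx).to_subtype
  have h2 : {φ : A →ₐ[ℂ] B | ∀ b, c (φ b) = x b}.Finite :=
    Set.finite_coe_iff.1 (Finite.of_injective F hF)
  have h3 : {b : B | ∃ φ : A →ₐ[ℂ] B, c.comp φ = x ∧ φ a = b}.Finite := by
    refine (h2.image fun φ => φ a).subset ?_
    rintro b ⟨φ, hφ, rfl⟩
    exact ⟨φ, (comp_eq_iff c φ x).1 hφ, rfl⟩
  exact FiniteDimensional.span_of_finite ℂ h3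

theorem noLine_iff [Algebra.FiniteType ℂ A] (x : A →ₐ[ℂ] ℂ) :
    NoLine x ↔ ∀ (Y : Scheme.{0}) (q : Y ⟶ SpecC), IsVariety q → ∀ y : SpecC ⟶ Y,
      y ≫ q = 𝟙 SpecC → (PointedMaps x q y).Countable := by
  constructor
  · intro h Y q hq y hy
    obtain ⟨B, _, _, _, _, y', hy'⟩ := exists_ring (A := A) hq hy
    obtain ⟨F, hF⟩ := hy' x
    have := (countable_ring x h y').to_subtype
    exact Set.countable_coe_iff.1 (Function.Injective.countable hF)
  · intro h
    obtain ⟨F, hF⟩ := exists_of_ring (A := A) (Polynomial.aeval (0 : ℂ) : ℂ[X] →ₐ[ℂ] ℂ) x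
    have h1 := (h _ _ (isVariety_spec (B := ℂ[X])) _
      (point_spec (Polynomial.aeval (0 : ℂ) : ℂ[X] →ₐ[ℂ] ℂ))).to_subtype
    have h2 := Set.countable_coe_iff.1 (Function.Injective.countable hF)
    have h3 : {φ : A →ₐ[ℂ] ℂ[X] | ∀ b, (φ b).eval 0 = x b} ⊆
        {φ : A →ₐ[ℂ] ℂ[X] | ∀ b, (Polynomial.aeval (0 : ℂ) : ℂ[X] →ₐ[ℂ] ℂ) (φ b) = x b} := by
      intro φ hφ b
      rw [Polynomial.coe_aeval_eq_eval]
      exact hφ b
    exact noLine_of_countable x (h2.mono h3)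

end Pool.Agent.Y193
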