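import Mathlib

/-!
Definitions for problem MP_c69980_ag: affine varieties `U = Spec A` over the complex numbers, closed
subsets `Δ` given by ideals `J` of `A`, and morphisms from curves and from arbitrary varieties to
`U`.
-/

set_option autoImplicit false

open Polynomial AlgebraicGeometry CategoryTheory

namespace Pool.Agent.Y193

/-- `Spec ℂ` -/
noncomputable abbrev SpecC : Scheme.{0} := Spec (CommRingCat.of ℂ)

/-- `q : Y ⟶ Spec ℂ` is a complex variety. -/
structure IsVariety {Y : Scheme.{0}} (q : Y ⟶ SpecC) : Prop where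
  isIntegral : IsIntegral Y
  isSeparated : IsSeparated q
  locallyOfFiniteType : LocallyOfFiniteType q
  quasiCompact : QuasiCompact q

/-- the morphisms from `Y` to `Spec A` over `ℂ` which map the point `y` to `x` -/
def PointedMaps {A : Type} [CommRing A] [Algebra ℂ A] (x : A →ₐ[ℂ] ℂ) {Y : Scheme.{0}}
    (q : Y ⟶ SpecC) (y : SpecC ⟶ Y) : Set (Y ⟶ Spec (CommRingCat.of A)) :=
  {f | f ≫ Spec.map (CommRingCat.ofHom (algebraMap ℂ A)) = q ∧
    y ≫ f = Spec.map (CommRingCat.ofHom x.toRingHom)}

/-- Condition 3 for `U = Spec A` and `Δ = V(J)`: for all varieties `Y`, points `y` of `Y` and points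
`x` of `U` outside `Δ`, there are only finitely many morphisms from `Y` to `U` which map `y` to
`x`. -/
def FinitePointedMaps (A : Type) [CommRing A] [Algebra ℂ A] (J : Ideal A) : Prop :=
  ∀ (Y : Scheme.{0}) (q : Y ⟶ SpecC), IsVariety q → ∀ y : SpecC ⟶ Y, y ≫ q = 𝟙 SpecC →
    ∀ x : A →ₐ[ℂ] ℂ, ¬ J ≤ RingHom.ker x → (PointedMaps x q y).Finite

/-- Condition 5 for `U = Spec A` and `Δ = V(J)`: `U` is bounded modulo `Δ`. For every smooth affine
curve `C = Spec B` and every regular function `a` on `U`, the functions `a ∘ f`, where `f : C ⟶ U`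
is a morphism with an image not contained in `Δ`, lie in a finite-dimensional space; that is, their
pole orders at the points at infinity of `C` are bounded. -/
def BoundedModulo (A : Type) [CommRing A] [Algebra ℂ A] (J : Ideal A) : Prop :=
  ∀ (B : Type) [CommRing B] [IsDedekindDomain B] [Algebra ℂ B] [Algebra.FiniteType ℂ B] (a : A),
    FiniteDimensional ℂ
      (Submodule.span ℂ {b : B | ∃ φ : A →ₐ[ℂ] B, ¬ J ≤ RingHom.ker φ ∧ φ a = b})

/-- The pointed version of condition 5: for every smooth affine curve `C = Spec B`, point `c` of `C`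
and point `x` of `U = Spec A` outside `Δ = V(J)`, the family of the morphisms from `C` to `U` which
map `c` to `x` is bounded. -/
def PointedBounded (A : Type) [CommRing A] [Algebra ℂ A] (J : Ideal A) : Prop :=
  ∀ (B : Type) [CommRing B] [IsDedekindDomain B] [Algebra ℂ B] [Algebra.FiniteType ℂ B]
    (c : B →ₐ[ℂ] ℂ) (x : A →ₐ[ℂ] ℂ), ¬ J ≤ RingHom.ker x → ∀ a : A,
    FiniteDimensional ℂ
      (Submodule.span ℂ {b : B | ∃ φ : A →ₐ[ℂ] B, c.comp φ = x ∧ φ a = b})

/-- All morphisms from the affine line to `Spec A` which map `0` to `x` are constant. -/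
def NoLine {A : Type} [CommRing A] [Algebra ℂ A] (x : A →ₐ[ℂ] ℂ) : Prop :=
  ∀ ψ : A →ₐ[ℂ] ℂ[X], (∀ b, (ψ b).eval 0 = x b) → ∀ b, ψ b = Polynomial.C (x b)

end Pool.Agent.Y193
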