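import Pool.Agent.Y193.Wt

/-!
If an affine variety has no nonconstant polynomial curve through the point `x` then the pointed
curves in it, with coordinates in a finite-dimensional space of functions, are finite in number.
-/

set_option autoImplicit false

open MvPolynomial Finsupp

namespace Pool.Agent.Y193

/-- the coefficient of `ζ ^ m` of `f` has weight at most `m`, and that of `g` is its component of
weight `m` -/
def Rel {σ K : Type} [Field K] (w : σ → ℕ) (f g : PowerSeries (MvPolynomial σ K)) : Prop :=
  ∀ m, PowerSeries.coeff m f ∈ (Low w (m + 1) : Submodule K _) ∧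
    PowerSeries.coeff m g = weightedHomogeneousComponent w m (PowerSeries.coeff m f)

section Rel

variable {σ K : Type} [Field K] {w : σ → ℕ}

theorem Rel.add {f g f' g' : PowerSeries (MvPolynomial σ K)} (h : Rel w f g) (h' : Rel w f' g') :
    Rel w (f + f') (g + g') := by
  intro m
  rw [map_add, map_add, map_add, (h m).2, (h' m).2]
  exact ⟨Submodule.add_mem _ (h m).1 (h' m).1, rfl⟩

theorem Rel.mul {f g f' g' : PowerSeries (MvPolynomial σ K)} (h : Rel w f g) (h' : Rel w f' g') :
    Rel w (f * f') (g * g') := by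
  classical
  intro m
  rw [PowerSeries.coeff_mul, PowerSeries.coeff_mul, map_sum]
  refine ⟨Submodule.sum_mem _ fun p hp => ?_, Finset.sum_congr rfl fun p hp => ?_⟩
  · rw [← Finset.HasAntidiagonal.mem_antidiagonal.1 hp]
    exact low_mul (a := p.1) (b := p.2 + 1) (h p.1).1 (h' p.2).1
  · rw [← Finset.HasAntidiagonal.mem_antidiagonal.1 hp, comp_mul (h p.1).1 (h' p.2).1,
      (h p.1).2, (h' p.2).2]

theorem rel_algebraMap (r : K) : Rel w (algebraMap K (PowerSeries (MvPolynomial σ K)) r)
    (algebraMap K (PowerSeries (MvPolynomial σ K)) r) := by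
  intro m
  rw [PowerSeries.algebraMap_apply, PowerSeries.coeff_C]
  have h0 : IsWeightedHomogeneous w (algebraMap K (MvPolynomial σ K) r) 0 :=
    isWeightedHomogeneous_C w r
  split_ifs with h
  · subst h
    exact ⟨low_of_hom h0, h0.weightedHomogeneousComponent_same.symm⟩
  · exact ⟨Submodule.zero_mem _, (map_zero _).symm⟩

theorem rel_aeval {τ : Type} {γ γ0 : τ → PowerSeries (MvPolynomial σ K)}
    (h : ∀ i, Rel w (γ i) (γ0 i)) (G : MvPolynomial τ K) : Rel w (aeval γ G) (aeval γ0 G) := by
  induction G using MvPolynomial.induction_on with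
  | C a =>
    rw [aeval_C, aeval_C]
    exact rel_algebraMap a
  | add p q hp hq =>
    rw [map_add, map_add]
    exact hp.add hq
  | mul_X p i hp =>
    rw [map_mul, map_mul, aeval_X, aeval_X]
    exact hp.mul (h i)

end Rel

/-- finitely many coefficients determine the elements of a finite-dimensional space of power series
-/
theorem exists_coeff_inj {K : Type} [Field K] (W : Submodule K (PowerSeries K))
    [FiniteDimensional K W] (hW : ∀ u ∈ W, PowerSeries.constantCoeff u = 0) :
    ∃ k : ℕ, ∀ u ∈ W, (∀ j < k, PowerSeries.coeff (j + 1) u = 0) → u = 0 := by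
  let F : ℕ → Submodule K W := fun k =>
    ⨅ j : Fin k, LinearMap.ker ((PowerSeries.coeff (j.1 + 1) : PowerSeries K →ₗ[K] K).comp
      W.subtype)
  have hF : ∀ k (u : W), u ∈ F k ↔ ∀ j < k, PowerSeries.coeff (j + 1) (u : PowerSeries K) = 0 := by
    intro k u
    simp only [F, Submodule.mem_iInf, LinearMap.mem_ker, LinearMap.comp_apply,
      Submodule.subtype_apply]
    exact ⟨fun h j hj => h ⟨j, hj⟩, fun h j => h j.1 j.2⟩
  have hmono : Monotone (fun k => OrderDual.toDual (F k)) := by
    intro a b hab u hu
    have hu' : u ∈ F b := hu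
    change u ∈ F a
    rw [hF] at hu' ⊢
    exact fun j hj => hu' j (hj.trans_le hab)
  obtain ⟨n, hn⟩ := IsArtinian.monotone_stabilizes (R := K) (M := W) ⟨_, hmono⟩
  refine ⟨n, fun u hu h => ?_⟩
  have h1 : (⟨u, hu⟩ : W) ∈ F n := (hF n _).2 h
  ext m
  rcases m with _ | m
  · rw [PowerSeries.coeff_zero_eq_constantCoeff_apply, hW u hu]
    simp
  · have h2 : F n = F (max n (m + 1)) := hn _ (le_max_left _ _)
    rw [h2, hF] at h1
    rw [h1 m (by omega)]
    simp

theorem finite_of_no_curve {K : Type} [Field K] [IsAlgClosed K] {A B : Type} [CommRing A]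
    [Algebra K A] [CommRing B] [Algebra K B] {N : ℕ} (a : Fin N → A)
    (ha : Function.Surjective (aeval a : MvPolynomial (Fin N) K →ₐ[K] A))
    (τ : B →ₐ[K] PowerSeries K) (hτ : Function.Injective τ) (x : A →ₐ[K] K)
    (W : Submodule K B) [FiniteDimensional K W]
    (hno : ∀ ψ : A →ₐ[K] Polynomial K, (∀ b, (ψ b).eval 0 = x b) →
      ∀ b, ψ b = Polynomial.C (x b)) :
    {φ : A →ₐ[K] B | (∀ i, φ (a i) ∈ W) ∧
      ∀ b, PowerSeries.constantCoeff (τ (φ b)) = x b}.Finite := by
  classical
  set W1 : Submodule K (PowerSeries K) := (W.map τ.toLinearMap ⊔ Submodule.span K {1}) ⊓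
    LinearMap.ker (PowerSeries.coeff 0 : PowerSeries K →ₗ[K] K) with hW1
  have hW1c : ∀ u ∈ W1, PowerSeries.constantCoeff u = 0 := by
    intro u hu
    have := (Submodule.mem_inf.1 hu).2
    rwa [LinearMap.mem_ker, PowerSeries.coeff_zero_eq_constantCoeff_apply] at this
  have : FiniteDimensional K W1 := Submodule.finiteDimensional_of_le inf_le_left
  obtain ⟨k, hk⟩ := exists_coeff_inj W1 hW1c
  let T : W1 →ₗ[K] (Fin k → K) :=
    LinearMap.pi fun j => (PowerSeries.coeff (j.1 + 1) : PowerSeries K →ₗ[K] K).comp W1.subtype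
  have hT : ∀ (u : W1) (j : Fin k), T u j = PowerSeries.coeff (j.1 + 1) (u : PowerSeries K) :=
    fun u j => rfl
  have hTinj : LinearMap.ker T = ⊥ := by
    rw [LinearMap.ker_eq_bot']
    intro u hu
    ext1
    exact hk u u.2 fun j hj => by rw [← hT u ⟨j, hj⟩, hu]; rfl
  obtain ⟨P, hP⟩ := T.exists_leftInverse_of_injective hTinj
  have hPT : ∀ u, P (T u) = u := fun u => by
    have := LinearMap.congr_fun hP u
    exact this
  -- the generic arc
  let σ := Fin N × Fin k
  let w : σ → ℕ := fun s => s.2.1 + 1
  let γ : Fin N → PowerSeries (MvPolynomial σ K) := fun i => PowerSeries.mk fun m =>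
    if m = 0 then C (x (a i)) else if h : m - 1 < k then X (i, ⟨m - 1, h⟩) else
      ∑ j : Fin k, C (PowerSeries.coeff m (P (Pi.single j 1) : PowerSeries K)) * X (i, j)
  let γ0 : Fin N → PowerSeries (MvPolynomial σ K) := fun i => PowerSeries.mk fun m =>
    if m = 0 then C (x (a i)) else if h : m - 1 < k then X (i, ⟨m - 1, h⟩) else 0
  have hrel : ∀ i, Rel w (γ i) (γ0 i) := by
    intro i m
    simp only [γ, γ0, PowerSeries.coeff_mk]
    split_ifs with h1 h2
    · subst h1
      have h0 := isWeightedHomogeneous_C (R := K) w (x (a i))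
      exact ⟨low_of_hom h0, h0.weightedHomogeneousComponent_same.symm⟩
    · have h0 := isWeightedHomogeneous_X K w ((i, ⟨m - 1, h2⟩) : σ)
      have h3 : w (i, ⟨m - 1, h2⟩) = m := by
        simp only [w]
        omega
      rw [h3] at h0
      exact ⟨low_of_hom h0, h0.weightedHomogeneousComponent_same.symm⟩
    · have h3 : (∑ j : Fin k, C (PowerSeries.coeff m (P (Pi.single j 1) : PowerSeries K)) *
          X (i, j) : MvPolynomial σ K) ∈ (Low w m : Submodule K _) := by
        refine Submodule.sum_mem _ fun j _ => ?_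
        rw [C_mul']
        refine Submodule.smul_mem _ _ ?_
        refine low_mono ?_ (low_of_hom (isWeightedHomogeneous_X K w ((i, j) : σ)))
        have := j.2
        simp only [w]
        omega
      exact ⟨low_mono (Nat.le_succ m) h3, (comp_of_low h3).symm⟩
  -- the equations
  let ι := {G : MvPolynomial (Fin N) K // aeval a G = 0} × ℕ
  let E : ι → MvPolynomial σ K := fun e => PowerSeries.coeff e.2 (aeval γ e.1.1)
  have hE : ∀ e, E e ∈ (Low w (e.2 + 1) : Submodule K _) := fun e =>
    (rel_aeval hrel e.1.1 e.2).1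
  have hmap : ∀ (v : σ → K) (δ : Fin N → PowerSeries (MvPolynomial σ K)) (G : MvPolynomial (Fin N) K),
      PowerSeries.map (eval v) (aeval δ G) = aeval (fun i => PowerSeries.map (eval v) (δ i)) G := by
    intro v δ G
    induction G using MvPolynomial.induction_on with
    | C r =>
      rw [aeval_C, aeval_C, PowerSeries.algebraMap_apply, PowerSeries.algebraMap_apply,
        PowerSeries.map_C]
      congr 1
      exact eval_C r
    | add p q hp hq => rw [map_add, map_add, map_add, hp, hq]
    | mul_X p i hp => rw [map_mul, map_mul, map_mul, hp, aeval_X, aeval_X]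
  have hzero : ∀ v : σ → K, (∀ e : ι, eval v (weightedHomogeneousComponent w e.2 (E e)) = 0) →
      v = 0 := by
    intro v hv
    let c : Fin N → Polynomial K := fun i => Polynomial.C (x (a i)) +
      ∑ j : Fin k, Polynomial.C (v (i, j)) * Polynomial.X ^ (j.1 + 1)
    have hcoef : ∀ i m, (c i).coeff m = if m = 0 then x (a i) else
        if h : m - 1 < k then v (i, ⟨m - 1, h⟩) else 0 := by
      intro i m
      simp only [c, Polynomial.coeff_add, Polynomial.coeff_C, Polynomial.finsetSum_coeff,
        Polynomial.coeff_C_mul, Polynomial.coeff_X_pow]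
      split_ifs with h1 h2
      · subst h1
        simp
      · rw [zero_add, Finset.sum_eq_single (⟨m - 1, h2⟩ : Fin k)]
        · rw [if_pos (by simp only; omega), mul_one]
        · intro j _ hj
          have : m ≠ j.1 + 1 := by
            rintro rfl
            exact hj (by ext; simp)
          simp [this]
        · intro h
          exact absurd (Finset.mem_univ _) h
      · rw [zero_add]
        refine Finset.sum_eq_zero fun j _ => ?_
        have := j.2
        have h3 : m ≠ j.1 + 1 := by omega
        simp [h3]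
    have hc : ∀ i, PowerSeries.map (eval v) (γ0 i) = (c i : PowerSeries K) := by
      intro i
      ext m
      rw [PowerSeries.coeff_map, Polynomial.coeff_coe, hcoef]
      simp only [γ0, PowerSeries.coeff_mk]
      split_ifs <;> simp
    have hker : ∀ G : MvPolynomial (Fin N) K, aeval a G = 0 → aeval c G = 0 := by
      intro G hG
      apply Polynomial.coe_injective K
      have h1 : ((aeval c G : Polynomial K) : PowerSeries K) =
          aeval (fun i => PowerSeries.map (eval v) (γ0 i)) G := by
        have h2 : (fun i => PowerSeries.map (eval v) (γ0 i)) =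
            fun i => Polynomial.coeToPowerSeries.algHom (R := K) K (c i) := by
          funext i
          rw [hc, Polynomial.coeToPowerSeries.algHom_apply]
          simp
        rw [h2, ← MvPolynomial.comp_aeval_apply, Polynomial.coeToPowerSeries.algHom_apply]
        simp
      rw [h1, ← hmap]
      ext m
      rw [PowerSeries.coeff_map, (rel_aeval hrel G m).2]
      have := hv (⟨G, hG⟩, m)
      simp only [E] at this
      rw [this]
      simp
    have hle : RingHom.ker (aeval a : MvPolynomial (Fin N) K →ₐ[K] A) ≤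
        RingHom.ker (aeval c : MvPolynomial (Fin N) K →ₐ[K] Polynomial K) := fun G hG =>
      hker G hG
    let e := Ideal.quotientKerAlgEquivOfSurjective ha
    let L := Ideal.Quotient.liftₐ (RingHom.ker (aeval a : MvPolynomial (Fin N) K →ₐ[K] A))
        (aeval c) fun G hG => hle hG
    let ψ : A →ₐ[K] Polynomial K := L.comp e.symm.toAlgHom
    have hψ : ∀ i, ψ (a i) = c i := by
      intro i
      have h1 : e.symm (a i) = Ideal.Quotient.mk _ (X i) := by
        rw [AlgEquiv.symm_apply_eq]
        have : e (Ideal.Quotient.mk _ (X i)) = aeval a (X i : MvPolynomial (Fin N) K) :=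
          Ideal.quotientKerAlgEquivOfSurjective_mk ha (X i)
        rw [this, aeval_X]
      have h3 : ψ (a i) = L (e.symm (a i)) := rfl
      rw [h3, h1]
      have h2 : L (Ideal.Quotient.mk _ (X i)) = aeval c (X i) := rfl
      rw [h2, aeval_X]
    have hψ0 : ∀ b, (ψ b).eval 0 = x b := by
      have h1 : ((Polynomial.aeval (0 : K)).comp ψ).comp (aeval a) =
          x.comp (aeval a : MvPolynomial (Fin N) K →ₐ[K] A) := by
        apply MvPolynomial.algHom_ext
        intro i
        simp only [AlgHom.comp_apply, aeval_X, hψ, Polynomial.coe_aeval_eq_eval]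
        rw [← Polynomial.coeff_zero_eq_eval_zero, hcoef]
        simp
      intro b
      obtain ⟨G, rfl⟩ := ha b
      have h2 := AlgHom.congr_fun h1 G
      simpa [Polynomial.coe_aeval_eq_eval] using h2
    have hconst := hno ψ hψ0
    funext s
    obtain ⟨i, j⟩ := s
    have h1 := hconst (a i)
    rw [hψ] at h1
    have h2 := congrArg (fun p => Polynomial.coeff p (j.1 + 1)) h1
    simp only [hcoef, Polynomial.coeff_C] at h2
    simpa using h2
  have hfin := finite_zeros w E (fun e => e.2) hE hzero
  -- the map to the set of zeros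
  let Φ : (A →ₐ[K] B) → (σ → K) := fun φ s => PowerSeries.coeff (s.2.1 + 1) (τ (φ (a s.1)))
  have hu : ∀ φ : A →ₐ[K] B, ((∀ i, φ (a i) ∈ W) ∧
      ∀ b, PowerSeries.constantCoeff (τ (φ b)) = x b) → ∀ i,
      τ (φ (a i)) - PowerSeries.C (x (a i)) ∈ W1 := by
    intro φ hφ i
    rw [hW1, Submodule.mem_inf]
    constructor
    · refine Submodule.sub_mem _ (Submodule.mem_sup_left ⟨φ (a i), hφ.1 i, rfl⟩)
        (Submodule.mem_sup_right ?_)
      rw [Submodule.mem_span_singleton]
      refine ⟨x (a i), ?_⟩
      rw [PowerSeries.smul_eq_C_mul, mul_one]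
    · rw [LinearMap.mem_ker, map_sub, PowerSeries.coeff_zero_eq_constantCoeff_apply,
        PowerSeries.coeff_zero_eq_constantCoeff_apply, hφ.2, PowerSeries.constantCoeff_C, sub_self]
  have hcoefu : ∀ (φ : A →ₐ[K] B) (i : Fin N) (m : ℕ), m ≠ 0 →
      PowerSeries.coeff m (τ (φ (a i)) - PowerSeries.C (x (a i))) =
        PowerSeries.coeff m (τ (φ (a i))) := by
    intro φ i m hm
    rw [map_sub, PowerSeries.coeff_C, if_neg hm, sub_zero]
  refine Set.Finite.of_injOn (f := Φ) (t := {v : σ → K | ∀ i, eval v (E i) = 0}) ?_ ?_ hfin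
  · intro φ hφ
    have hφ' := hφ
    rintro ⟨⟨G, hG⟩, m⟩
    simp only [E]
    have h1 : ∀ i, PowerSeries.map (eval (Φ φ)) (γ i) = τ (φ (a i)) := by
      intro i
      set u : W1 := ⟨_, hu φ hφ' i⟩ with hudef
      ext m
      rw [PowerSeries.coeff_map]
      simp only [γ, PowerSeries.coeff_mk]
      split_ifs with h1 h2
      · subst h1
        rw [eval_C, PowerSeries.coeff_zero_eq_constantCoeff_apply, hφ'.2]
      · rw [eval_X]
        simp only [Φ]
        congr 1
        rw [Nat.sub_add_cancel (Nat.one_le_iff_ne_zero.2 h1)]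
      · rw [map_sum]
        simp only [map_mul, eval_C, eval_X]
        have h3 : ∀ j : Fin k, Φ φ (i, j) = T u j := by
          intro j
          rw [hT, hudef]
          simp only [Φ]
          rw [hcoefu φ i _ (Nat.succ_ne_zero _)]
        have h4 : (P (T u) : PowerSeries K) = ∑ j : Fin k, T u j • (P (Pi.single j 1) : PowerSeries K) := by
          have h5 : T u = ∑ j : Fin k, T u j • (Pi.single j (1 : K) : Fin k → K) := by
            rw [← pi_eq_sum_univ' (T u)]
          conv_lhs => rw [h5]
          rw [map_sum]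
          simp [map_smul]
        rw [hPT] at h4
        rw [← hcoefu φ i m h1]
        have h6 : (u : PowerSeries K) = τ (φ (a i)) - PowerSeries.C (x (a i)) := rfl
        rw [← h6, h4, map_sum]
        refine Finset.sum_congr rfl fun j _ => ?_
        rw [h3, map_smul, smul_eq_mul, mul_comm]
    have h2 : PowerSeries.map (eval (Φ φ)) (aeval γ G) = τ (φ (aeval a G)) := by
      rw [hmap]
      have h3 : (fun i => PowerSeries.map (eval (Φ φ)) (γ i)) = fun i => (τ.comp φ) (a i) := by
        funext i
        exact h1 i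
      rw [h3, ← MvPolynomial.comp_aeval_apply]
      rfl
    rw [← PowerSeries.coeff_map, h2, hG]
    simp
  · intro φ hφ φ' hφ' h
    have h1 : ∀ i, φ (a i) = φ' (a i) := by
      intro i
      apply hτ
      have h2 : (⟨_, hu φ hφ i⟩ : W1) = ⟨_, hu φ' hφ' i⟩ := by
        have h3 : T ⟨_, hu φ hφ i⟩ = T ⟨_, hu φ' hφ' i⟩ := by
          funext j
          rw [hT, hT]
          simp only
          rw [hcoefu φ i _ (Nat.succ_ne_zero _), hcoefu φ' i _ (Nat.succ_ne_zero _)]
          exact congrFun h (i, j)
        have h4 := congrArg P h3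
        rwa [hPT, hPT] at h4
      have h3 := congrArg Subtype.val h2
      simpa using h3
    have h2 : φ.comp (aeval a : MvPolynomial (Fin N) K →ₐ[K] A) = φ'.comp (aeval a) := by
      apply MvPolynomial.algHom_ext
      intro i
      simpa using h1 i
    ext b
    obtain ⟨G, rfl⟩ := ha b
    exact AlgHom.congr_fun h2 G

end Pool.Agent.Y193
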