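import Pool.Agent.Y193.Norm

/-!
Curves through a given point of an affine variety which avoid the zeros of countably many given
functions.
-/

set_option autoImplicit false

open Polynomial

namespace Pool.Agent.Y193

/-- Countably many nonzero polynomials are all nonzero at some point. -/
theorem exists_avoid (s : ℕ) (F : ℕ → MvPolynomial (Fin s) ℂ) (hF : ∀ n, F n ≠ 0) :
    ∃ u : Fin s → ℂ, ∀ n, MvPolynomial.eval u (F n) ≠ 0 := by
  induction s with
  | zero =>
    refine ⟨Fin.elim0, fun n h => hF n ?_⟩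
    rw [MvPolynomial.eq_C_of_isEmpty (F n)] at h ⊢
    rw [MvPolynomial.eval_C] at h
    rw [h, map_zero]
  | succ s ih =>
    have h1 : ∀ n, ∃ k, (MvPolynomial.finSuccEquiv ℂ s (F n)).coeff k ≠ 0 := by
      intro n
      by_contra h
      push Not at h
      apply hF n
      apply (MvPolynomial.finSuccEquiv ℂ s).injective
      rw [map_zero]
      ext k : 1
      rw [h k, Polynomial.coeff_zero]
    choose k hk using h1
    obtain ⟨u, hu⟩ := ih (fun n => (MvPolynomial.finSuccEquiv ℂ s (F n)).coeff (k n)) hk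
    let p : ℕ → ℂ[X] := fun n =>
      Polynomial.map (MvPolynomial.eval u) (MvPolynomial.finSuccEquiv ℂ s (F n))
    have hp : ∀ n, p n ≠ 0 := by
      intro n h
      have := congrArg (fun q => Polynomial.coeff q (k n)) h
      simp only [p, Polynomial.coeff_map, Polynomial.coeff_zero] at this
      exact hu n this
    have hc : (⋃ n, {z : ℂ | (p n).IsRoot z}).Countable :=
      Set.countable_iUnion fun n => (Polynomial.finite_setOfPred_isRoot (hp n)).countable
    have hne : (⋃ n, {z : ℂ | (p n).IsRoot z}) ≠ Set.univ := by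
      intro h
      rw [h] at hc
      exact not_countable_complex hc
    obtain ⟨z, hz⟩ := (Set.ne_univ_iff_exists_notMem _).1 hne
    refine ⟨Fin.cons z u, fun n h => hz ?_⟩
    rw [Set.mem_iUnion]
    refine ⟨n, ?_⟩
    rw [MvPolynomial.eval_eq_eval_mv_eval'] at h
    exact h

theorem exists_curve {B : Type} [CommRing B] [IsDomain B] [Algebra ℂ B] [Algebra.FiniteType ℂ B]
    (y : B →ₐ[ℂ] ℂ) (f : ℕ → B) (hf : ∀ n, f n ≠ 0) :
    ∃ (D : Type) (_ : CommRing D) (_ : Algebra ℂ D) (_ : IsDedekindDomain D)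
      (_ : Algebra.FiniteType ℂ D) (γ : B →ₐ[ℂ] D) (c : D →ₐ[ℂ] ℂ),
      (∀ n, γ (f n) ≠ 0) ∧ ∀ b, c (γ b) = y b := by
  obtain ⟨s, g, hginj, hgfin⟩ := exists_finite_inj_algHom_of_fg ℂ B
  let P := MvPolynomial (Fin s) ℂ
  let : Algebra P B := g.toRingHom.toAlgebra
  have hgP : ∀ p : P, algebraMap P B p = g p := fun p => rfl
  have : IsScalarTower ℂ P B := IsScalarTower.of_algebraMap_eq fun x => (g.commutes x).symm
  have : Module.Finite P B := hgfin
  have : FaithfulSMul P B := (faithfulSMul_iff_algebraMap_injective P B).2 hginj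
  -- norms
  have hN : ∀ n, ∃ F : P, F ≠ 0 ∧ ∃ b, g F = f n * b := by
    intro n
    have h1 : (Ideal.span {f n} : Ideal B).comap (algebraMap P B) ≠ ⊥ :=
      Ideal.comap_ne_bot_of_integral_mem (hf n) (Ideal.mem_span_singleton_self _)
        (Algebra.IsIntegral.isIntegral _)
    obtain ⟨F, hF, hF0⟩ := Submodule.exists_mem_ne_zero_of_ne_bot h1
    rw [Ideal.mem_comap, Ideal.mem_span_singleton] at hF
    obtain ⟨b, hb⟩ := hF
    exact ⟨F, hF0, b, hb⟩
  choose F hF0 b hFb using hN
  let p : Fin s → ℂ := fun i => y (g (MvPolynomial.X i))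
  have hyg : ∀ G : P, y (g G) = MvPolynomial.eval p G := by
    intro G
    have h1 : (y.comp g) = MvPolynomial.aeval p := by
      apply MvPolynomial.algHom_ext
      intro i
      simp [p]
    have h2 := AlgHom.congr_fun h1 G
    rw [AlgHom.comp_apply] at h2
    rw [h2, ← MvPolynomial.coe_aeval_eq_eval]
    rfl
  rcases Nat.eq_zero_or_pos s with hs | hs
  · -- dimension zero
    subst hs
    have hsurj : ∀ x : B, ∃ r : ℂ, algebraMap ℂ B r = x := by
      have : Algebra.IsIntegral ℂ B := by
        have h1 : Algebra.IsIntegral ℂ P := by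
          refine ⟨fun q => ?_⟩
          rw [MvPolynomial.eq_C_of_isEmpty q]
          exact isIntegral_algebraMap
        exact Algebra.IsIntegral.trans P
      intro x
      exact (IsAlgClosed.algebraMap_bijective_of_isIntegral (k := ℂ) (K := B)).2 x
    refine ⟨ℂ, inferInstance, inferInstance, inferInstance, inferInstance, y, AlgHom.id ℂ ℂ,
      fun n h => ?_, fun b => rfl⟩
    obtain ⟨r, hr⟩ := hsurj (f n)
    rw [← hr, AlgHom.commutes] at h
    apply hf n
    rw [← hr]
    have : r = 0 := h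
    rw [this, map_zero]
  -- choice of the line
  let i0 : Fin s := ⟨0, hs⟩
  obtain ⟨u, hu⟩ := exists_avoid s (fun n => Nat.casesOn n
    (MvPolynomial.X i0 - MvPolynomial.C (p i0)) fun m => F m) (by
      intro n
      rcases n with _ | m
      · intro h
        have h1 := congrArg (MvPolynomial.eval fun _ => p i0 + 1) h
        simp at h1
      · exact hF0 m)
  have hu0 : u i0 ≠ p i0 := by
    have := hu 0
    change MvPolynomial.eval u (MvPolynomial.X i0 - MvPolynomial.C (p i0)) ≠ 0 at this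
    rw [map_sub, MvPolynomial.eval_X, MvPolynomial.eval_C] at this
    exact fun h => this (by rw [h, sub_self])
  have huF : ∀ m, MvPolynomial.eval u (F m) ≠ 0 := fun m => hu (m + 1)
  let v : Fin s → ℂ := fun i => u i - p i
  have hv0 : v i0 ≠ 0 := sub_ne_zero.2 hu0
  let θ : P →ₐ[ℂ] ℂ[X] := MvPolynomial.aeval fun i => Polynomial.C (p i) +
    Polynomial.C (v i) * Polynomial.X
  have hθ : ∀ i, θ (MvPolynomial.X i) = Polynomial.C (p i) + Polynomial.C (v i) * Polynomial.X :=
    fun i => MvPolynomial.aeval_X _ i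
  have hθeval : ∀ (t : ℂ) (G : P), (θ G).eval t = MvPolynomial.eval (fun i => p i + v i * t) G := by
    intro t G
    have h1 : (Polynomial.aeval t).comp θ = MvPolynomial.aeval fun i => p i + v i * t := by
      apply MvPolynomial.algHom_ext
      intro i
      simp [hθ]
    have h2 := AlgHom.congr_fun h1 G
    rw [AlgHom.comp_apply, Polynomial.coe_aeval_eq_eval] at h2
    rw [h2, ← MvPolynomial.coe_aeval_eq_eval]
    rfl
  obtain ⟨par, hpar0⟩ : ∃ q : P, q = MvPolynomial.C (v i0)⁻¹ *
    (MvPolynomial.X i0 - MvPolynomial.C (p i0)) := ⟨_, rfl⟩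
  have hpar : θ par = Polynomial.X := by
    have hC : ∀ r : ℂ, θ (MvPolynomial.C r) = Polynomial.C r := fun r => MvPolynomial.aeval_C _ r
    simp only [hpar0, map_mul, map_sub, hC, hθ]
    rw [add_sub_cancel_left, ← mul_assoc, ← Polynomial.C_mul, inv_mul_cancel₀ hv0,
      Polynomial.C_1, one_mul]
  have hθsurj : Function.Surjective θ := by
    intro h
    refine ⟨Polynomial.aeval par h, ?_⟩
    rw [← Polynomial.aeval_algHom_apply, hpar, Polynomial.aeval_X_left_apply]
  have hIprime : (RingHom.ker θ).IsPrime := RingHom.ker_isPrime _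
  have hyprime : (RingHom.ker y).IsPrime := RingHom.ker_isPrime _
  have hygprime : (RingHom.ker (y.comp g)).IsPrime := RingHom.ker_isPrime _
  have hle : RingHom.ker θ ≤ RingHom.ker (y.comp g) := by
    intro G hG
    rw [RingHom.mem_ker] at hG ⊢
    rw [AlgHom.comp_apply, hyg]
    have h1 := hθeval 0 G
    rw [hG, Polynomial.eval_zero] at h1
    simpa using h1.symm
  have hover : (RingHom.ker y).LiesOver (RingHom.ker (y.comp g)) := ⟨by
    ext G
    rfl⟩
  obtain ⟨Q, hQle, hQprime, hQover⟩ := Ideal.exists_ideal_le_liesOver_of_le (RingHom.ker y)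
    (p := RingHom.ker θ) (q := RingHom.ker (y.comp g)) hle
  have hQ : ∀ G : P, g G ∈ Q ↔ θ G = 0 := by
    intro G
    have h1 : RingHom.ker θ = Q.under P := hQover.over
    have h2 : G ∈ RingHom.ker θ ↔ G ∈ Q.under P := by rw [h1]
    rw [RingHom.mem_ker] at h2
    exact h2.symm
  -- the quotient
  let B1 := B ⧸ Q
  let κ : ℂ[X] →ₐ[ℂ] B1 := Polynomial.aeval (Ideal.Quotient.mkₐ ℂ Q (g par))
  have hκ : ∀ G : P, κ (θ G) = Ideal.Quotient.mkₐ ℂ Q (g G) := by
    have h1 : κ.comp θ = (Ideal.Quotient.mkₐ ℂ Q).comp g := by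
      apply MvPolynomial.algHom_ext
      intro i
      rw [AlgHom.comp_apply, AlgHom.comp_apply, hθ]
      have h2 : κ (Polynomial.C (p i) + Polynomial.C (v i) * Polynomial.X) =
          Ideal.Quotient.mkₐ ℂ Q (g (MvPolynomial.C (p i) + MvPolynomial.C (v i) * par)) := by
        have hC : ∀ r : ℂ, g (MvPolynomial.C r) = algebraMap ℂ B r := fun r => g.commutes r
        have hC' : ∀ r : ℂ, κ (Polynomial.C r) = algebraMap ℂ B1 r := fun r => κ.commutes r
        have hX : κ Polynomial.X = Ideal.Quotient.mkₐ ℂ Q (g par) := Polynomial.aeval_X _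
        rw [map_add, map_mul, hC', hC', hX, map_add, map_mul, hC, hC, map_add, map_mul,
          AlgHom.commutes, AlgHom.commutes]
      rw [h2]
      apply Ideal.Quotient.eq.2
      rw [← map_sub, hQ, map_sub, map_add, map_mul, hpar, hθ]
      have hC : ∀ r : ℂ, θ (MvPolynomial.C r) = Polynomial.C r := fun r => MvPolynomial.aeval_C _ r
      rw [hC, hC, sub_self]
    exact fun G => AlgHom.congr_fun h1 G
  let : Algebra ℂ[X] B1 := κ.toRingHom.toAlgebra
  have hκa : ∀ h : ℂ[X], algebraMap ℂ[X] B1 h = κ h := fun h => rfl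
  have : IsScalarTower ℂ ℂ[X] B1 := IsScalarTower.of_algebraMap_eq fun x => (κ.commutes x).symm
  have hinj : Function.Injective κ := by
    rw [injective_iff_map_eq_zero]
    intro h hh
    obtain ⟨G, rfl⟩ := hθsurj h
    rw [hκ] at hh
    exact (hQ G).1 (Ideal.Quotient.eq_zero_iff_mem.1 hh)
  have : FaithfulSMul ℂ[X] B1 := (faithfulSMul_iff_algebraMap_injective _ _).2 hinj
  have hfin : Module.Finite ℂ[X] B1 := by
    let : Algebra P ℂ[X] := θ.toRingHom.toAlgebra
    let : Algebra P B1 := ((Ideal.Quotient.mkₐ ℂ Q).comp g).toRingHom.toAlgebra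
    have h1 : IsScalarTower P ℂ[X] B1 := IsScalarTower.of_algebraMap_eq fun G => (hκ G).symm
    have h2 : Module.Finite P B1 := by
      have h3 : IsScalarTower P B B1 := IsScalarTower.of_algebraMap_eq fun G => rfl
      have h4 : Module.Finite B B1 := inferInstance
      exact Module.Finite.trans B B1
    exact Module.Finite.of_restrictScalars_finite P ℂ[X] B1
  let y1 : B1 →ₐ[ℂ] ℂ := Ideal.Quotient.liftₐ Q y fun a ha => hQle ha
  have hy1 : ∀ a : B, y1 (Ideal.Quotient.mkₐ ℂ Q a) = y a := fun a => rfl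
  obtain ⟨D, i1, i2, i3, i4, γ, c, hγ, hc⟩ := exists_normalization y1
  refine ⟨D, i1, i2, i3, i4, γ.comp (Ideal.Quotient.mkₐ ℂ Q), c, fun n h => ?_, fun a => ?_⟩
  · rw [AlgHom.comp_apply] at h
    have h1 : Ideal.Quotient.mkₐ ℂ Q (f n) = 0 := hγ (by rw [h, map_zero])
    have h2 : f n ∈ Q := Ideal.Quotient.eq_zero_iff_mem.1 h1
    have h3 : g (F n) ∈ Q := by
      rw [hFb]
      exact Q.mul_mem_right _ h2
    rw [hQ] at h3
    have h4 := hθeval 1 (F n)
    rw [h3, Polynomial.eval_zero] at h4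
    apply huF n
    rw [h4]
    congr 2
    funext i
    simp [v]
  · rw [AlgHom.comp_apply, hc, hy1]

end Pool.Agent.Y193
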