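import Mathlib

/-!
Taylor expansions at a point of a nonsingular curve.
-/

set_option autoImplicit false

namespace Pool.Agent.Y193

section Expand

variable {K R : Type} [Field K] [CommRing R] [Algebra K R]

theorem expand_step (c : R →ₐ[K] K) (ϖ : R) (hker : RingHom.ker c = Ideal.span {ϖ}) (b : R) :
    ∃ d : R, b = algebraMap K R (c b) + ϖ * d := by
  have h : b - algebraMap K R (c b) ∈ RingHom.ker c := by
    rw [RingHom.mem_ker, map_sub, AlgHom.commutes]
    simp
  rw [hker, Ideal.mem_span_singleton] at h
  obtain ⟨d, hd⟩ := h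
  exact ⟨d, by rw [← hd]; ring⟩

/-- Taylor expansion with respect to the parameter `ϖ`. -/
theorem exists_expansion [IsDomain R] (c : R →ₐ[K] K) (ϖ : R) (hϖ : ϖ ≠ 0)
    (hker : RingHom.ker c = Ideal.span {ϖ}) (hinf : ⨅ n : ℕ, Ideal.span {ϖ} ^ n = (⊥ : Ideal R)) :
    ∃ τ : R →ₐ[K] PowerSeries K, Function.Injective τ ∧
      ∀ b, PowerSeries.constantCoeff (τ b) = c b := by
  choose δ hδ using expand_step c ϖ hker
  have huniq : ∀ b d, b = algebraMap K R (c b) + ϖ * d → δ b = d := by
    intro b d h
    have h2 : ϖ * δ b = ϖ * d := add_left_cancel ((hδ b).symm.trans h)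
    exact mul_left_cancel₀ hϖ h2
  have hadd : ∀ a b, δ (a + b) = δ a + δ b := fun a b => huniq _ _ (by
    conv_lhs => rw [hδ a, hδ b]
    rw [map_add, map_add]
    ring)
  have hsmul : ∀ (r : K) (b : R), δ (r • b) = r • δ b := fun r b => huniq _ _ (by
    conv_lhs => rw [hδ b]
    rw [map_smul, smul_eq_mul, map_mul, Algebra.smul_def, Algebra.smul_def]
    ring)
  have hmul : ∀ a b, δ (a * b) = c a • δ b + δ a * b := fun a b => huniq _ _ (by
    conv_lhs => rw [hδ a]
    rw [map_mul, map_mul, Algebra.smul_def]
    conv_lhs => rw [add_mul]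
    conv_lhs => arg 1; rw [hδ b]
    ring)
  have hone : ∀ r : K, δ (algebraMap K R r) = 0 := fun r => huniq _ _ (by
    rw [AlgHom.commutes]
    simp)
  let t : R → PowerSeries K := fun b => PowerSeries.mk fun n => c (δ^[n] b)
  have ht0 : ∀ b, PowerSeries.coeff 0 (t b) = c b := fun b => by simp [t]
  have hts : ∀ b n, PowerSeries.coeff (n + 1) (t b) = PowerSeries.coeff n (t (δ b)) :=
    fun b n => by simp [t, Function.iterate_succ_apply]
  have tadd : ∀ a b, t (a + b) = t a + t b := by
    have : ∀ n a b, PowerSeries.coeff n (t (a + b)) = PowerSeries.coeff n (t a + t b) := by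
      intro n
      induction n with
      | zero => intro a b; rw [map_add, ht0, ht0, ht0, map_add]
      | succ n ih => intro a b; rw [map_add, hts, hts, hts, hadd, ih, map_add]
    exact fun a b => PowerSeries.ext fun n => this n a b
  have tsmul : ∀ (r : K) b, t (r • b) = r • t b := by
    have : ∀ n (r : K) b, PowerSeries.coeff n (t (r • b)) = r • PowerSeries.coeff n (t b) := by
      intro n
      induction n with
      | zero => intro a b; rw [ht0, ht0, map_smul]
      | succ n ih => intro a b; rw [hts, hts, hsmul, ih]
    exact fun a b => PowerSeries.ext fun n => by rw [this n a b, PowerSeries.coeff_smul]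
  have tstep : ∀ b, t b = PowerSeries.C (c b) + PowerSeries.X * t (δ b) := by
    intro b
    ext n
    rcases n with _ | n
    · rw [ht0]
      simp
    · rw [hts, map_add, PowerSeries.coeff_C, if_neg (Nat.succ_ne_zero n), zero_add,
        PowerSeries.coeff_succ_X_mul]
  have tmul : ∀ a b, t (a * b) = t a * t b := by
    have : ∀ n a b, PowerSeries.coeff n (t (a * b)) = PowerSeries.coeff n (t a * t b) := by
      intro n
      induction n with
      | zero =>
        intro a b
        have h0 : PowerSeries.coeff 0 (t a * t b) =
            PowerSeries.coeff 0 (t a) * PowerSeries.coeff 0 (t b) := by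
          simp [PowerSeries.coeff_zero_eq_constantCoeff]
        rw [ht0, h0, ht0, ht0, map_mul]
      | succ n ih =>
        intro a b
        rw [hts, hmul, tadd, tsmul, map_add, ih]
        conv_rhs => rw [tstep a, add_mul, map_add, PowerSeries.coeff_C_mul, hts, mul_assoc,
          PowerSeries.coeff_succ_X_mul]
        rw [PowerSeries.coeff_smul, smul_eq_mul]
    exact fun a b => PowerSeries.ext fun n => this n a b
  have talg : ∀ r : K, t (algebraMap K R r) = algebraMap K (PowerSeries K) r := by
    intro r
    have h0 : t 0 = 0 := by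
      have := tadd 0 0
      rw [add_zero] at this
      exact (add_eq_left.1 this.symm)
    rw [tstep, hone, h0, mul_zero, add_zero, AlgHom.commutes, PowerSeries.algebraMap_apply]
  let τ : R →ₐ[K] PowerSeries K :=
    { toFun := t
      map_one' := by
        have := talg 1
        rwa [map_one, map_one] at this
      map_mul' := tmul
      map_zero' := by
        have := talg 0
        rwa [map_zero, map_zero] at this
      map_add' := tadd
      commutes' := talg }
  refine ⟨τ, ?_, fun b => by
    rw [← PowerSeries.coeff_zero_eq_constantCoeff_apply]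
    exact ht0 b⟩
  rw [injective_iff_map_eq_zero]
  intro b hb
  have hb' : ∀ n, c (δ^[n] b) = 0 := by
    intro n
    have := congrArg (PowerSeries.coeff n) (show t b = 0 from hb)
    simpa [t] using this
  have h1 : ∀ n, b = ϖ ^ n * δ^[n] b := by
    intro n
    induction n with
    | zero => simp
    | succ n ih =>
      conv_lhs => rw [ih, hδ (δ^[n] b), hb' n]
      rw [Function.iterate_succ_apply', map_zero, zero_add]
      ring
  have h2 : b ∈ ⨅ n : ℕ, Ideal.span {ϖ} ^ n := by
    rw [Ideal.mem_iInf]
    intro n
    rw [Ideal.span_singleton_pow, Ideal.mem_span_singleton]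
    exact ⟨_, h1 n⟩
  rw [hinf] at h2
  exact h2

end Expand

/-- Taylor expansion at a point of a nonsingular curve. -/
theorem exists_taylor {K B : Type} [Field K] [CommRing B] [IsDedekindDomain B]
    [Algebra K B] (c : B →ₐ[K] K) : ∃ τ : B →ₐ[K] PowerSeries K, Function.Injective τ ∧
      ∀ b, PowerSeries.constantCoeff (τ b) = c b := by
  by_cases hbot : RingHom.ker c = ⊥
  · have hinj : Function.Injective c := by
      rw [injective_iff_map_eq_zero]
      intro b hb
      have : b ∈ RingHom.ker c := hb
      rwa [hbot] at this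
    refine ⟨(Algebra.ofId K (PowerSeries K)).comp c, ?_, fun b => ?_⟩
    · have h1 : Function.Injective (algebraMap K (PowerSeries K)) :=
        (algebraMap K (PowerSeries K)).injective
      exact h1.comp hinj
    · simp only [AlgHom.comp_apply, Algebra.ofId_apply, PowerSeries.algebraMap_apply,
        PowerSeries.constantCoeff_C]
      rfl
  · have hprime : (RingHom.ker c).IsPrime := RingHom.ker_isPrime _
    let R := Localization.AtPrime (RingHom.ker c)
    have hdvr : IsDiscreteValuationRing R :=
      IsLocalization.AtPrime.isDiscreteValuationRing_of_dedekind_domain B hbot R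
    have hunit : ∀ y : (RingHom.ker c).primeCompl, IsUnit (c y) := fun y =>
      isUnit_iff_ne_zero.2 fun h => y.2 h
    let c' : R →ₐ[K] K := IsLocalization.liftAlgHom (M := (RingHom.ker c).primeCompl) (f := c) hunit
    have hc' : ∀ b, c' (algebraMap B R b) = c b := fun b => IsLocalization.lift_eq hunit b
    obtain ⟨ϖ, hϖ⟩ := IsDiscreteValuationRing.exists_irreducible R
    have hmax : RingHom.ker c' = IsLocalRing.maximalIdeal R := by
      apply IsLocalRing.eq_maximalIdeal
      exact RingHom.ker_isMaximal_of_surjective c' fun r => ⟨algebraMap K R r, by simp⟩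
    have hker : RingHom.ker c' = Ideal.span {ϖ} := by
      rw [hmax]
      exact hϖ.maximalIdeal_eq
    have hinf : ⨅ n : ℕ, Ideal.span {ϖ} ^ n = (⊥ : Ideal R) := by
      apply Ideal.iInf_pow_eq_bot_of_isLocalRing
      rw [← hker, hmax]
      exact Ideal.IsPrime.ne_top'
    obtain ⟨τ, hτ1, hτ2⟩ := exists_expansion c' ϖ hϖ.ne_zero hker hinf
    refine ⟨τ.comp (IsScalarTower.toAlgHom K B R), ?_, fun b => ?_⟩
    · have h1 : Function.Injective (algebraMap B R) :=
        IsLocalization.injective R (RingHom.ker c).primeCompl_le_nonZeroDivisors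
      exact hτ1.comp h1
    · rw [AlgHom.comp_apply, hτ2]
      exact hc' b

end Pool.Agent.Y193
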