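import Mathlib

/-!
Normalization of a finite extension of the polynomial ring in one variable, and points of the
normalization over a given point.
-/

set_option autoImplicit false

open Polynomial

namespace Pool.Agent.Y193

/-- extension of a point to an integral extension of finite type -/
theorem exists_point {K B D : Type} [Field K] [IsAlgClosed K] [CommRing B] [CommRing D]
    [Algebra K B] [Algebra K D] [Algebra B D] [IsScalarTower K B D] [Algebra.FiniteType K D]
    [Algebra.IsIntegral B D] (hinj : Function.Injective (algebraMap B D)) (y : B →ₐ[K] K) :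
    ∃ c : D →ₐ[K] K, ∀ b, c (algebraMap B D b) = y b := by
  have hmax : (RingHom.ker y).IsMaximal :=
    RingHom.ker_isMaximal_of_surjective y fun r => ⟨algebraMap K B r, by simp⟩
  obtain ⟨Q, hQ, hQy⟩ := Ideal.exists_ideal_over_maximal_of_isIntegral (S := D) (RingHom.ker y)
    (by rw [(RingHom.injective_iff_ker_eq_bot _).1 hinj]; exact bot_le)
  let : Field (D ⧸ Q) := Ideal.Quotient.field Q
  have hfin : Module.Finite K (D ⧸ Q) := finite_of_finite_type_of_isJacobsonRing K (D ⧸ Q)
  have hbij : Function.Bijective (algebraMap K (D ⧸ Q)) :=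
    IsAlgClosed.algebraMap_bijective_of_isIntegral
  let e : K ≃ₐ[K] (D ⧸ Q) := AlgEquiv.ofBijective (Algebra.ofId K (D ⧸ Q)) hbij
  refine ⟨e.symm.toAlgHom.comp (Ideal.Quotient.mkₐ K Q), fun b => ?_⟩
  have h1 : e (y b) = Ideal.Quotient.mkₐ K Q (algebraMap B D b) := by
    have h2 : algebraMap B D (algebraMap K B (y b) - b) ∈ Q := by
      have h3 : algebraMap K B (y b) - b ∈ RingHom.ker y := by
        rw [RingHom.mem_ker, map_sub, AlgHom.commutes]
        simp
      rw [← hQy] at h3
      exact h3
    rw [map_sub, ← IsScalarTower.algebraMap_apply] at h2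
    have h4 := Ideal.Quotient.eq.2 h2
    exact h4
  change e.symm (Ideal.Quotient.mkₐ K Q (algebraMap B D b)) = y b
  rw [← h1, AlgEquiv.symm_apply_apply]

theorem exists_normalization {B : Type} [CommRing B] [IsDomain B] [Algebra ℂ B] [Algebra ℂ[X] B]
    [IsScalarTower ℂ ℂ[X] B] [Module.Finite ℂ[X] B] [FaithfulSMul ℂ[X] B] (y : B →ₐ[ℂ] ℂ) :
    ∃ (D : Type) (_ : CommRing D) (_ : Algebra ℂ D) (_ : IsDedekindDomain D)
      (_ : Algebra.FiniteType ℂ D) (γ : B →ₐ[ℂ] D) (c : D →ₐ[ℂ] ℂ),
      Function.Injective γ ∧ ∀ b, c (γ b) = y b := by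
  let L := FractionRing B
  let : Algebra (FractionRing ℂ[X]) L := FractionRing.liftAlgebra ℂ[X] L
  have : IsScalarTower ℂ[X] (FractionRing ℂ[X]) L := FractionRing.isScalarTower_liftAlgebra _ _
  have : FiniteDimensional (FractionRing ℂ[X]) L := .of_isLocalization ℂ[X] B (nonZeroDivisors ℂ[X])
  have : Algebra.IsSeparable (FractionRing ℂ[X]) L := inferInstance
  let D := integralClosure ℂ[X] L
  have hD : IsDedekindDomain D := integralClosure.isDedekindDomain ℂ[X] (FractionRing ℂ[X]) L
  have hDfin : Module.Finite ℂ[X] D :=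
    IsIntegralClosure.finite ℂ[X] (FractionRing ℂ[X]) L D
  have hft : Algebra.FiniteType ℂ D := by
    have h1 : Algebra.FiniteType ℂ[X] D := inferInstance
    have h2 : Algebra.FiniteType ℂ ℂ[X] := inferInstance
    exact Algebra.FiniteType.trans (S := ℂ[X]) h2 h1
  have hint : ∀ b : B, algebraMap B L b ∈ integralClosure ℂ[X] L := fun b => by
    have h1 : IsIntegral ℂ[X] b := Algebra.IsIntegral.isIntegral b
    exact h1.algebraMap
  let : Algebra B D := (RingHom.codRestrict (algebraMap B L) D.toSubring hint).toAlgebra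
  have hBD : ∀ b : B, ((algebraMap B D b : D) : L) = algebraMap B L b := fun b => rfl
  have : IsScalarTower ℂ[X] B D := IsScalarTower.of_algebraMap_eq fun x => by
    apply Subtype.ext
    rw [hBD, ← IsScalarTower.algebraMap_apply]
    rfl
  have : IsScalarTower ℂ B D := IsScalarTower.of_algebraMap_eq fun x => by
    apply Subtype.ext
    rw [hBD, ← IsScalarTower.algebraMap_apply]
    rfl
  have hinj : Function.Injective (algebraMap B D) := by
    intro a b h
    have h1 := congrArg Subtype.val h
    rw [hBD, hBD] at h1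
    exact IsFractionRing.injective B L h1
  have : Algebra.IsIntegral B D := by
    have h1 : Algebra.IsIntegral ℂ[X] D := inferInstance
    exact Algebra.IsIntegral.tower_top (R := ℂ[X])
  obtain ⟨c, hc⟩ := exists_point hinj y
  exact ⟨D, inferInstance, inferInstance, hD, hft, IsScalarTower.toAlgHom ℂ B D, c, hinj, hc⟩

end Pool.Agent.Y193
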