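import Pool.Agent.Y193.Defs
import Pool.Agent.Y193.Curve
import Pool.Agent.Y193.Arc
import Pool.Agent.Y193.Dvr

/-!
Pointed maps to affine varieties: the theorem for rings.
-/

set_option autoImplicit false

open Polynomial

namespace Pool.Agent.Y193

variable {A : Type} [CommRing A] [Algebra ℂ A]

theorem finite_ring {N : ℕ} (a : Fin N → A)
    (ha : Function.Surjective (MvPolynomial.aeval a : MvPolynomial (Fin N) ℂ →ₐ[ℂ] A))
    (x : A →ₐ[ℂ] ℂ) (hno : NoLine x) {B : Type} [CommRing B] [IsDomain B] [Algebra ℂ B]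
    [Algebra.FiniteType ℂ B] (y : B →ₐ[ℂ] ℂ) (S : Set (A →ₐ[ℂ] B))
    (hS : ∀ φ ∈ S, ∀ b, y (φ b) = x b)
    (hbd : ∀ (D : Type) [CommRing D] [Algebra ℂ D] [IsDedekindDomain D] [Algebra.FiniteType ℂ D]
      (γ : B →ₐ[ℂ] D) (c : D →ₐ[ℂ] ℂ), (∀ b, c (γ b) = y b) →
      ∃ W : Submodule ℂ D, FiniteDimensional ℂ W ∧ ∀ φ ∈ S, ∀ i, γ (φ (a i)) ∈ W) :
    S.Finite := by
  by_contra hinf
  have hinf' : S.Infinite := hinf
  let φ : ℕ → (A →ₐ[ℂ] B) := fun n => (hinf'.natEmbedding S n : A →ₐ[ℂ] B)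
  have hφS : ∀ n, φ n ∈ S := fun n => (hinf'.natEmbedding S n).2
  have hφinj : Function.Injective φ := fun m n h =>
    (hinf'.natEmbedding S).injective (Subtype.ext h)
  -- differences
  have hdiff : ∀ k : ℕ, ∃ f : B, f ≠ 0 ∧ (k.unpair.1 ≠ k.unpair.2 →
      ∃ b : A, f = φ k.unpair.1 b - φ k.unpair.2 b) := by
    intro k
    by_cases h : k.unpair.1 = k.unpair.2
    · exact ⟨1, one_ne_zero, fun h' => absurd h h'⟩
    · have h1 : φ k.unpair.1 ≠ φ k.unpair.2 := fun h' => h (hφinj h')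
      obtain ⟨b, hb⟩ := DFunLike.ne_iff.1 h1
      exact ⟨_, sub_ne_zero.2 hb, fun _ => ⟨b, rfl⟩⟩
  choose f hf0 hf using hdiff
  obtain ⟨D, i1, i2, i3, i4, γ, c, hγ, hc⟩ := exists_curve y f hf0
  obtain ⟨W, hWf, hW⟩ := hbd D γ c hc
  obtain ⟨τ, hτ, hτc⟩ := exists_taylor c
  have hfin := finite_of_no_curve a ha τ hτ x W hno
  have hrange : (Set.range fun n => γ.comp (φ n)).Finite := by
    refine hfin.subset ?_
    rintro _ ⟨n, rfl⟩
    refine ⟨fun i => hW _ (hφS n) i, fun b => ?_⟩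
    rw [AlgHom.comp_apply, hτc, hc, hS _ (hφS n)]
  have hinj : Function.Injective fun n => γ.comp (φ n) := by
    intro m n h
    by_contra hmn
    have h1 : (Nat.pair m n).unpair.1 ≠ (Nat.pair m n).unpair.2 := by
      rw [Nat.unpair_pair]
      exact hmn
    obtain ⟨b, hb⟩ := hf _ h1
    apply hγ (Nat.pair m n)
    rw [hb, Nat.unpair_pair, map_sub]
    have h2 := AlgHom.congr_fun h b
    simp only [AlgHom.comp_apply] at h2
    simp only
    rw [h2, sub_self]
  exact (Set.infinite_range_of_injective hinj) hrange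

theorem countable_ring [Algebra.FiniteType ℂ A] (x : A →ₐ[ℂ] ℂ) (hno : NoLine x) {B : Type}
    [CommRing B] [IsDomain B] [Algebra ℂ B] [Algebra.FiniteType ℂ B] (y : B →ₐ[ℂ] ℂ) :
    {φ : A →ₐ[ℂ] B | ∀ b, y (φ b) = x b}.Countable := by
  obtain ⟨N, π, hπ⟩ := Algebra.FiniteType.iff_quotient_mvPolynomial''.1
    (inferInstance : Algebra.FiniteType ℂ A)
  obtain ⟨M, ρ, hρ⟩ := Algebra.FiniteType.iff_quotient_mvPolynomial''.1
    (inferInstance : Algebra.FiniteType ℂ B)
  let a : Fin N → A := fun i => π (MvPolynomial.X i)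
  have ha : MvPolynomial.aeval a = π := by
    apply MvPolynomial.algHom_ext
    intro i
    simp [a]
  have ha' : Function.Surjective (MvPolynomial.aeval a : MvPolynomial (Fin N) ℂ →ₐ[ℂ] A) := by
    rw [ha]
    exact hπ
  let V : ℕ → Submodule ℂ B := fun k =>
    (MvPolynomial.restrictTotalDegree (Fin M) ℂ k).map ρ.toLinearMap
  have hVfin : ∀ k, FiniteDimensional ℂ (V k) := fun k => inferInstance
  have hVmono : Monotone V := by
    intro k l hkl
    refine Submodule.map_mono fun p hp => ?_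
    rw [MvPolynomial.mem_restrictTotalDegree] at hp ⊢
    exact hp.trans hkl
  have hVall : ∀ b : B, ∃ k, b ∈ V k := by
    intro b
    obtain ⟨p, rfl⟩ := hρ b
    exact ⟨p.totalDegree, p, by
      rw [SetLike.mem_coe, MvPolynomial.mem_restrictTotalDegree], rfl⟩
  have hcover : {φ : A →ₐ[ℂ] B | ∀ b, y (φ b) = x b} ⊆
      ⋃ k, {φ : A →ₐ[ℂ] B | (∀ b, y (φ b) = x b) ∧ ∀ i, φ (a i) ∈ V k} := by
    intro φ hφ
    choose k hk using fun i => hVall (φ (a i))
    rw [Set.mem_iUnion]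
    refine ⟨Finset.univ.sup k, hφ, fun i => hVmono (Finset.le_sup (Finset.mem_univ i)) (hk i)⟩
  refine Set.Countable.mono hcover (Set.countable_iUnion fun k => Set.Finite.countable ?_)
  refine finite_ring a ha' x hno y _ (fun φ hφ => hφ.1) fun D _ _ _ _ γ c _ => ?_
  exact ⟨(V k).map γ.toLinearMap, inferInstance, fun φ hφ i => ⟨_, hφ.2 i, rfl⟩⟩

/-- If `ψ` is a nonconstant line through `x`, then the maps `ψ (X ^ n)` are not in a
finite-dimensional space. -/
theorem noLine_of_bounded (x : A →ₐ[ℂ] ℂ)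
    (h : ∀ b : A, FiniteDimensional ℂ (Submodule.span ℂ
      {f : ℂ[X] | ∃ φ : A →ₐ[ℂ] ℂ[X], (∀ b, (φ b).eval 0 = x b) ∧ φ b = f})) : NoLine x := by
  intro ψ hψ b
  by_contra hb
  have hdeg : 0 < (ψ b).natDegree := by
    by_contra h0
    have h1 : (ψ b).natDegree = 0 := by omega
    rw [Polynomial.eq_C_of_natDegree_eq_zero h1] at hb
    apply hb
    rw [← hψ b, ← Polynomial.coeff_zero_eq_eval_zero]
  -- all the powers
  set W := Submodule.span ℂ
    {f : ℂ[X] | ∃ φ : A →ₐ[ℂ] ℂ[X], (∀ b, (φ b).eval 0 = x b) ∧ φ b = f} with hW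
  have hfin : FiniteDimensional ℂ W := h b
  have hmem : ∀ n : ℕ, 0 < n → (ψ b).comp (X ^ n) ∈ W := by
    intro n hn
    refine Submodule.subset_span ⟨(Polynomial.aeval (X ^ n : ℂ[X])).comp ψ, fun b' => ?_, ?_⟩
    · rw [AlgHom.comp_apply, Polynomial.aeval_def, ← hψ b']
      change ((ψ b').comp (X ^ n)).eval 0 = _
      rw [Polynomial.eval_comp]
      simp [hn.ne']
    · rw [AlgHom.comp_apply]
      rfl
  -- bounded degree
  obtain ⟨s, hs⟩ := (Module.finite_def.1 hfin : (⊤ : Submodule ℂ W).FG)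
  have hbound : ∀ f ∈ W, f.natDegree ≤ s.sup fun g => (g : ℂ[X]).natDegree := by
    intro f hf
    have h1 : (⟨f, hf⟩ : W) ∈ Submodule.span ℂ (s : Set W) := hs ▸ Submodule.mem_top
    refine Submodule.span_induction (p := fun (g : W) _ => (g : ℂ[X]).natDegree ≤
      s.sup fun g => (g : ℂ[X]).natDegree) ?_ ?_ ?_ ?_ h1
    · intro g hg
      exact Finset.le_sup (f := fun g : W => (g : ℂ[X]).natDegree) hg
    · simp
    · intro f g _ _ hf hg
      rw [Submodule.coe_add]
      exact (Polynomial.natDegree_add_le _ _).trans (max_le hf hg)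
    · intro r f _ hf
      rw [Submodule.coe_smul]
      exact (Polynomial.natDegree_smul_le _ _).trans hf
  have h2 := hbound _ (hmem ((s.sup fun g => (g : ℂ[X]).natDegree) + 1) (Nat.succ_pos _))
  rw [Polynomial.natDegree_comp, Polynomial.natDegree_X_pow] at h2
  have h3 : 1 * ((s.sup fun g => (g : ℂ[X]).natDegree) + 1) ≤
    (ψ b).natDegree * ((s.sup fun g => (g : ℂ[X]).natDegree) + 1) := Nat.mul_le_mul_right _ hdeg
  omega

/-- A line through `x` gives uncountably many lines. -/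
theorem noLine_of_countable (x : A →ₐ[ℂ] ℂ)
    (h : {φ : A →ₐ[ℂ] ℂ[X] | ∀ b, (φ b).eval 0 = x b}.Countable) : NoLine x := by
  intro ψ hψ b
  by_contra hb
  have hdeg : 0 < (ψ b).natDegree := by
    by_contra h0
    have h1 : (ψ b).natDegree = 0 := by omega
    rw [Polynomial.eq_C_of_natDegree_eq_zero h1] at hb
    apply hb
    rw [← hψ b, ← Polynomial.coeff_zero_eq_eval_zero]
  let F : ℂ → (A →ₐ[ℂ] ℂ[X]) := fun r => (Polynomial.aeval (C r * X : ℂ[X])).comp ψ
  have hF : ∀ r b', F r b' = (ψ b').comp (C r * X) := fun r b' => rfl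
  have hmaps : ∀ r, F r ∈ {φ : A →ₐ[ℂ] ℂ[X] | ∀ b, (φ b).eval 0 = x b} := by
    intro r b'
    rw [hF, Polynomial.eval_comp, ← hψ b']
    simp
  have hcoef : ∀ r, (F r b).coeff (ψ b).natDegree = (ψ b).leadingCoeff * r ^ (ψ b).natDegree := by
    intro r
    rw [hF, Polynomial.comp_C_mul_X_coeff]
    rfl
  have hlead : (ψ b).leadingCoeff ≠ 0 := by
    rw [Polynomial.leadingCoeff_ne_zero]
    rintro h0
    rw [h0] at hdeg
    simp at hdeg
  -- the fibres of `F` are finite, so ℂ would be countable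
  have hfib : ∀ φ : A →ₐ[ℂ] ℂ[X], {r : ℂ | F r = φ}.Countable := by
    intro φ
    have hsub : {r : ℂ | F r = φ} ⊆ {r : ℂ | (C (ψ b).leadingCoeff * X ^ (ψ b).natDegree -
        C ((φ b).coeff (ψ b).natDegree) : ℂ[X]).IsRoot r} := by
      intro r hr
      have h1 := hcoef r
      rw [show F r = φ from hr] at h1
      change ((C (ψ b).leadingCoeff * X ^ (ψ b).natDegree -
        C ((φ b).coeff (ψ b).natDegree) : ℂ[X])).eval r = 0
      simp only [Polynomial.eval_sub, Polynomial.eval_mul, Polynomial.eval_C, Polynomial.eval_pow,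
        Polynomial.eval_X]
      rw [← h1, sub_self]
    refine Set.Countable.mono hsub (Polynomial.finite_setOfPred_isRoot ?_).countable
    intro h0
    have h1 := congrArg (fun q => Polynomial.coeff q (ψ b).natDegree) h0
    simp only [Polynomial.coeff_sub, Polynomial.coeff_C_mul_X_pow, Polynomial.coeff_C,
      Polynomial.coeff_zero] at h1
    simp [hdeg.ne'] at h1
    exact hlead (by simpa using h1)
  have huniv : (Set.univ : Set ℂ).Countable := by
    have h1 : (Set.univ : Set ℂ) ⊆ ⋃ φ ∈ {φ : A →ₐ[ℂ] ℂ[X] | ∀ b, (φ b).eval 0 = x b},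
        {r : ℂ | F r = φ} := by
      intro r _
      simp only [Set.mem_iUnion]
      exact ⟨F r, hmaps r, rfl⟩
    exact Set.Countable.mono h1 (h.biUnion fun φ _ => hfib φ)
  exact not_countable_complex huniv

end Pool.Agent.Y193
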