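import Pool.Agent.Y193.Ring

/-!
Pointed maps from arbitrary varieties to affine varieties.
-/

set_option autoImplicit false

open Polynomial AlgebraicGeometry CategoryTheory

namespace Pool.Agent.Y193

section

variable {A : Type} [CommRing A] [Algebra ℂ A]

/-- reduction to rings -/
theorem exists_ring {Y : Scheme.{0}} {q : Y ⟶ SpecC} (hq : IsVariety q) {y : SpecC ⟶ Y}
    (hy : y ≫ q = 𝟙 SpecC) : ∃ (B : Type) (_ : CommRing B) (_ : IsDomain B) (_ : Algebra ℂ B)
      (_ : Algebra.FiniteType ℂ B) (y' : B →ₐ[ℂ] ℂ), ∀ x : A →ₐ[ℂ] ℂ,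
      ∃ F : PointedMaps x q y → {φ : A →ₐ[ℂ] B | ∀ b, y' (φ b) = x b}, Function.Injective F := by
  have hint := hq.isIntegral
  have hlft := hq.locallyOfFiniteType
  obtain ⟨R, j, hj, z, hz⟩ := Scheme.exists_Spec_apply_eq
    (y.base (IsLocalRing.closedPoint ℂ : PrimeSpectrum ℂ))
  have hran : Set.range y ⊆ Set.range j := by
    rintro _ ⟨t, rfl⟩
    have ht : t = (IsLocalRing.closedPoint ℂ : PrimeSpectrum ℂ) := Subsingleton.elim _ _
    rw [ht]
    exact ⟨z, hz⟩
  let y1 : SpecC ⟶ Spec R := IsOpenImmersion.lift j y hran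
  have hy1 : y1 ≫ j = y := IsOpenImmersion.lift_fac j y hran
  have hne : Nonempty (Spec R) := ⟨z⟩
  have hRi : IsIntegral (Spec R) := isIntegral_of_isOpenImmersion j
  have hR : IsDomain R := (affine_isIntegral_iff R).1 hRi
  let ρ : CommRingCat.of ℂ ⟶ R := Spec.preimage (j ≫ q)
  have hρ : Spec.map ρ = j ≫ q := Spec.map_preimage _
  let : Algebra ℂ R := ρ.hom.toAlgebra
  have hft : Algebra.FiniteType ℂ R := by
    have h1 : LocallyOfFiniteType (Spec.map ρ) := by
      rw [hρ]
      infer_instance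
    rw [HasRingHomProperty.Spec_iff (P := @LocallyOfFiniteType)] at h1
    exact h1
  let η : R ⟶ CommRingCat.of ℂ := Spec.preimage y1
  have hη : Spec.map η = y1 := Spec.map_preimage _
  have hρη : ρ ≫ η = 𝟙 (CommRingCat.of ℂ) := by
    apply Spec.map_injective
    rw [Spec.map_comp, hρ, hη, Spec.map_id, ← Category.assoc, hy1, hy]
  let y' : R →ₐ[ℂ] ℂ :=
    { η.hom with
      commutes' := fun r => by
        have := congrArg (fun f => f.hom r) hρη
        exact this }
  have hy' : ∀ b, y' b = η.hom b := fun b => rfl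
  have hdom : IsDominant j := by
    refine ⟨?_⟩
    have h1 : IsOpen (Set.range j) := j.isOpenEmbedding.isOpen_range
    exact h1.dense ⟨j z, z, rfl⟩
  refine ⟨R, inferInstance, hR, inferInstance, hft, y', fun x => ?_⟩
  have key : ∀ f : PointedMaps x q y, ∃ φ : {φ : A →ₐ[ℂ] R | ∀ b, y' (φ b) = x b},
      Spec.map (CommRingCat.ofHom φ.1.toRingHom) = j ≫ f.1 := by
    rintro ⟨f, hf1, hf2⟩
    let θ : CommRingCat.of A ⟶ R := Spec.preimage (j ≫ f)
    have hθ : Spec.map θ = j ≫ f := Spec.map_preimage _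
    have h1 : CommRingCat.ofHom (algebraMap ℂ A) ≫ θ = ρ := by
      apply Spec.map_injective
      rw [Spec.map_comp, hθ, hρ, Category.assoc, hf1]
    let φ : A →ₐ[ℂ] R :=
      { θ.hom with
        commutes' := fun r => by
          have := congrArg (fun f => f.hom r) h1
          exact this }
    have h2 : θ ≫ η = CommRingCat.ofHom x.toRingHom := by
      apply Spec.map_injective
      rw [Spec.map_comp, hθ, hη, ← Category.assoc, hy1, hf2]
    refine ⟨⟨φ, fun b => ?_⟩, ?_⟩
    · have := congrArg (fun f => f.hom b) h2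
      exact this
    · exact hθ
  choose F hF using key
  refine ⟨F, fun f g hfg => ?_⟩
  apply Subtype.ext
  have h1 : j ≫ f.1 = j ≫ g.1 := by rw [← hF, ← hF, hfg]
  refine ext_of_isDominant_of_isSeparated
    (Spec.map (CommRingCat.ofHom (algebraMap ℂ A))) ?_ j h1
  rw [f.2.1, g.2.1]

/-- rings give varieties -/
theorem isVariety_spec {B : Type} [CommRing B] [IsDomain B] [Algebra ℂ B]
    [hB : Algebra.FiniteType ℂ B] :
    IsVariety (Spec.map (CommRingCat.ofHom (algebraMap ℂ B))) where
  isIntegral := (affine_isIntegral_iff (CommRingCat.of B)).2 inferInstance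
  isSeparated := inferInstance
  locallyOfFiniteType := by
    rw [HasRingHomProperty.Spec_iff (P := @LocallyOfFiniteType)]
    change (algebraMap ℂ B).FiniteType
    rw [RingHom.finiteType_algebraMap]
    exact hB
  quasiCompact := inferInstance

theorem point_spec {B : Type} [CommRing B] [Algebra ℂ B] (c : B →ₐ[ℂ] ℂ) :
    Spec.map (CommRingCat.ofHom c.toRingHom) ≫ Spec.map (CommRingCat.ofHom (algebraMap ℂ B)) =
      𝟙 SpecC := by
  rw [← Spec.map_comp, ← Spec.map_id]
  congr 1
  ext r
  exact c.commutes r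

theorem exists_of_ring {B : Type} [CommRing B] [Algebra ℂ B] (c : B →ₐ[ℂ] ℂ) (x : A →ₐ[ℂ] ℂ) :
    ∃ F : {φ : A →ₐ[ℂ] B | ∀ b, c (φ b) = x b} → PointedMaps x
      (Spec.map (CommRingCat.ofHom (algebraMap ℂ B))) (Spec.map (CommRingCat.ofHom c.toRingHom)),
      Function.Injective F := by
  refine ⟨fun φ => ⟨Spec.map (CommRingCat.ofHom φ.1.toRingHom), ?_, ?_⟩, fun φ φ' h => ?_⟩
  · rw [← Spec.map_comp]
    congr 1
    ext r
    exact φ.1.commutes r
  · rw [← Spec.map_comp]
    congr 1
    ext b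
    exact φ.2 b
  · have h1 := Spec.map_injective (congrArg Subtype.val h)
    apply Subtype.ext
    ext b
    exact congrArg (fun f => f.hom b) h1

end

end Pool.Agent.Y193
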