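import Mathlib

/-!
Systems of polynomial equations whose weighted homogeneous parts of top weight have only the
trivial common zero have finitely many solutions.
-/

set_option autoImplicit false

open MvPolynomial Finsupp

namespace Pool.Agent.Y193

section Low

variable {σ : Type*} {K : Type*} [Field K]

/-- the polynomials all of whose monomials have weight less than `m` -/
def Low (w : σ → ℕ) (m : ℕ) : Submodule K (MvPolynomial σ K) where
  carrier := {p | ∀ d, coeff d p ≠ 0 → weight w d < m}
  zero_mem' := fun d hd => absurd (coeff_zero d) hd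
  add_mem' := fun {a b} ha hb d hd => by
    rw [coeff_add] at hd
    by_cases h : coeff d a = 0
    · rw [h, zero_add] at hd
      exact hb d hd
    · exact ha d h
  smul_mem' := fun r a ha d hd => by
    rw [coeff_smul] at hd
    exact ha d (right_ne_zero_of_mul hd)

theorem mem_low {w : σ → ℕ} {m : ℕ} {p : MvPolynomial σ K} :
    p ∈ Low w m ↔ ∀ d, coeff d p ≠ 0 → weight w d < m := Iff.rfl

theorem low_mono {w : σ → ℕ} {m n : ℕ} (h : m ≤ n) : (Low w m : Submodule K _) ≤ Low w n :=
  fun _ hp d hd => (hp d hd).trans_le h

theorem low_of_hom {w : σ → ℕ} {m : ℕ} {p : MvPolynomial σ K} (h : IsWeightedHomogeneous w p m) :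
    p ∈ Low w (m + 1) := fun _ hd => by
  rw [h hd]
  exact Nat.lt_succ_self m

theorem low_mul {w : σ → ℕ} {a b : ℕ} {p q : MvPolynomial σ K} (hp : p ∈ Low w (a + 1))
    (hq : q ∈ Low w b) : p * q ∈ Low w (a + b) := by
  classical
  intro d hd
  rw [coeff_mul] at hd
  obtain ⟨⟨x, y⟩, hxy, H⟩ := Finset.exists_ne_zero_of_sum_ne_zero hd
  have h1 := hp x (left_ne_zero_of_mul H)
  have h2 := hq y (right_ne_zero_of_mul H)
  rw [← Finset.HasAntidiagonal.mem_antidiagonal.mp hxy, map_add]
  change weight w x + weight w y < a + b
  omega

theorem low_mul' {w : σ → ℕ} {a b : ℕ} {p q : MvPolynomial σ K} (hp : p ∈ Low w a)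
    (hq : q ∈ Low w (b + 1)) : p * q ∈ Low w (a + b) := by
  rw [mul_comm, add_comm a b]
  exact low_mul hq hp

theorem comp_of_low {w : σ → ℕ} {m : ℕ} {p : MvPolynomial σ K} (hp : p ∈ Low w m) :
    weightedHomogeneousComponent w m p = 0 := by
  classical
  ext d
  rw [coeff_weightedHomogeneousComponent, coeff_zero]
  split_ifs with h
  · by_contra h1
    exact absurd h (hp d h1).ne
  · rfl

theorem sub_comp_low {w : σ → ℕ} {m : ℕ} {p : MvPolynomial σ K} (hp : p ∈ Low w (m + 1)) :
    p - weightedHomogeneousComponent w m p ∈ Low w m := by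
  classical
  intro d hd
  rw [coeff_sub, coeff_weightedHomogeneousComponent] at hd
  split_ifs at hd with h
  · exact absurd (sub_self _) hd
  · rw [sub_zero] at hd
    have := hp d hd
    omega

/-- the top component of a product -/
theorem comp_mul {w : σ → ℕ} {a b : ℕ} {p q : MvPolynomial σ K} (hp : p ∈ Low w (a + 1))
    (hq : q ∈ Low w (b + 1)) : weightedHomogeneousComponent w (a + b) (p * q) =
      weightedHomogeneousComponent w a p * weightedHomogeneousComponent w b q := by
  set p0 := weightedHomogeneousComponent w a p
  set q0 := weightedHomogeneousComponent w b q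
  have hp0 : IsWeightedHomogeneous w p0 a := weightedHomogeneousComponent_isWeightedHomogeneous a p
  have hq0 : IsWeightedHomogeneous w q0 b := weightedHomogeneousComponent_isWeightedHomogeneous b q
  have h : p * q = p0 * q0 + (p0 * (q - q0) + (p - p0) * q) := by ring
  have h1 : p0 * (q - q0) + (p - p0) * q ∈ (Low w (a + b) : Submodule K _) :=
    (Low w (a + b)).add_mem (low_mul (low_of_hom hp0) (sub_comp_low hq))
      (low_mul' (sub_comp_low hp) hq)
  rw [h, map_add, comp_of_low h1, add_zero]
  exact (hp0.mul hq0).weightedHomogeneousComponent_same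

end Low

theorem aeval_eq_ev {σ : Type*} {K : Type*} [Field K] (v : σ → K) (p : MvPolynomial σ K) :
    aeval v p = eval v p := by
  rw [← coe_aeval_eq_eval]
  rfl

section Zero

variable {σ : Type} [Finite σ] {K : Type} [Field K] [IsAlgClosed K]

/-- Let `E i` be polynomials in finitely many variables of positive weights, let `E0 i` be the
component of `E i` of weight `n i`, and suppose that `E i` has no monomials of larger weight. If the
`E0 i` have no common zero except the origin, then the `E i` have finitely many common zeros. -/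
theorem finite_zeros {ι : Type} (w : σ → ℕ)
    (E : ι → MvPolynomial σ K) (n : ι → ℕ) (hE : ∀ i, E i ∈ Low w (n i + 1))
    (h0 : ∀ v : σ → K, (∀ i, eval v (weightedHomogeneousComponent w (n i) (E i)) = 0) → v = 0) :
    {v : σ → K | ∀ i, eval v (E i) = 0}.Finite := by
  classical
  set E0 : ι → MvPolynomial σ K := fun i => weightedHomogeneousComponent w (n i) (E i) with hE0
  set J0 : Ideal (MvPolynomial σ K) := Ideal.span (Set.range E0) with hJ0
  set J : Ideal (MvPolynomial σ K) := Ideal.span (Set.range E) with hJ
  -- reduction of the components of the elements of `J0`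
  have key : ∀ p ∈ J0, ∀ m, ∃ q ∈ J, weightedHomogeneousComponent w m p - q ∈
      (Low w m : Submodule K _) := by
    have hmon : ∀ (i : ι) (d : σ →₀ ℕ) (c : K) (m : ℕ), ∃ q ∈ J,
        weightedHomogeneousComponent w m (monomial d c * E0 i) - q ∈
          (Low w m : Submodule K _) := by
      intro i d c m
      have hd : IsWeightedHomogeneous w (monomial d c : MvPolynomial σ K) (weight w d) :=
        isWeightedHomogeneous_monomial w d c rfl
      have h1 : IsWeightedHomogeneous w (E0 i) (n i) :=
        weightedHomogeneousComponent_isWeightedHomogeneous _ _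
      by_cases hm : weight w d + n i = m
      · refine ⟨monomial d c * E i, J.mul_mem_left _ (Ideal.subset_span ⟨i, rfl⟩), ?_⟩
        subst hm
        rw [(hd.mul h1).weightedHomogeneousComponent_same, ← mul_sub]
        refine low_mul (low_of_hom hd) ?_
        have h2 := sub_comp_low (hE i)
        rw [← neg_sub]
        exact (Low w (n i)).neg_mem h2
      · refine ⟨0, J.zero_mem, ?_⟩
        rw [(hd.mul h1).weightedHomogeneousComponent_ne _ (fun h => hm h.symm), sub_zero]
        exact Submodule.zero_mem _
    have hadd : ∀ x y : MvPolynomial σ K,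
        (∀ m, ∃ q ∈ J, weightedHomogeneousComponent w m x - q ∈ (Low w m : Submodule K _)) →
        (∀ m, ∃ q ∈ J, weightedHomogeneousComponent w m y - q ∈ (Low w m : Submodule K _)) →
        ∀ m, ∃ q ∈ J, weightedHomogeneousComponent w m (x + y) - q ∈
          (Low w m : Submodule K _) := by
      intro x y hx hy m
      obtain ⟨q1, hq1, h1⟩ := hx m
      obtain ⟨q2, hq2, h2⟩ := hy m
      refine ⟨q1 + q2, J.add_mem hq1 hq2, ?_⟩
      rw [map_add, add_sub_add_comm]
      exact Submodule.add_mem _ h1 h2
    have hzero : ∀ m, ∃ q ∈ J, weightedHomogeneousComponent w m (0 : MvPolynomial σ K) - q ∈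
        (Low w m : Submodule K _) := fun m =>
      ⟨0, J.zero_mem, by rw [map_zero, sub_zero]; exact Submodule.zero_mem _⟩
    have hmul : ∀ (i : ι) (c : MvPolynomial σ K) (m : ℕ), ∃ q ∈ J,
        weightedHomogeneousComponent w m (c * E0 i) - q ∈ (Low w m : Submodule K _) := by
      intro i c
      induction c using MvPolynomial.induction_on' with
      | monomial d c => exact fun m => hmon i d c m
      | add p q hp hq =>
        rw [add_mul]
        exact hadd _ _ hp hq
    intro p hp
    rw [hJ0, Ideal.span, Finsupp.mem_span_range_iff_exists_finsupp] at hp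
    obtain ⟨c, rfl⟩ := hp
    induction c using Finsupp.induction_linear with
    | zero => simpa using hzero
    | add f g hf hg =>
      rw [Finsupp.sum_add_index' (by simp) (by intros; rw [add_smul])]
      exact hadd _ _ hf hg
    | single i c =>
      rw [Finsupp.sum_single_index (by simp), smul_eq_mul]
      exact hmul i c
  -- powers of the variables
  have hX : ∀ s : σ, ∃ N : ℕ, 0 < N ∧ ∃ q ∈ J, (X s : MvPolynomial σ K) ^ N - q ∈
      (Low w (w s * N) : Submodule K _) := by
    intro s
    have h1 : (X s : MvPolynomial σ K) ∈ J0.radical := by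
      rw [← vanishingIdeal_zeroLocus_eq_radical (K := K), mem_vanishingIdeal_iff]
      intro v hv
      have h2 : v = 0 := h0 v fun i => by
        have := hv (E0 i) (Ideal.subset_span ⟨i, rfl⟩)
        rwa [aeval_eq_ev] at this
      rw [h2]
      simp
    obtain ⟨N, hN⟩ := h1
    have hN' : (X s : MvPolynomial σ K) ^ (N + 1) ∈ J0 := by
      rw [pow_succ]
      exact J0.mul_mem_right _ hN
    obtain ⟨q, hq, h3⟩ := key _ hN' (w s * (N + 1))
    refine ⟨N + 1, Nat.succ_pos _, q, hq, ?_⟩
    have h4 : IsWeightedHomogeneous w ((X s : MvPolynomial σ K) ^ (N + 1)) (w s * (N + 1)) := by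
      have := (isWeightedHomogeneous_X K w s).pow (N + 1)
      rwa [smul_eq_mul, mul_comm] at this
    rwa [h4.weightedHomogeneousComponent_same] at h3
  choose N hN q hq hlow using hX
  -- the quotient is spanned by finitely many monomials
  set M : Set (σ →₀ ℕ) := {d | ∀ s, d s < N s} with hM
  have hMfin : M.Finite := by
    have h1 : (Set.pi Set.univ fun s => Set.Iio (N s)).Finite :=
      Set.Finite.pi fun s => Set.finite_Iio _
    refine Set.Finite.of_injOn (f := fun d : σ →₀ ℕ => (d : σ → ℕ))
      (t := Set.pi Set.univ fun s => Set.Iio (N s)) (fun d hd s _ => hd s)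
      (fun a _ b _ h => DFunLike.coe_injective h) h1
  set S : Submodule K (MvPolynomial σ K) :=
    Submodule.span K ((fun d => monomial d (1 : K)) '' M) ⊔ (J.restrictScalars K) with hS
  have hspan : ∀ m : ℕ, (Low w m : Submodule K (MvPolynomial σ K)) ≤ S := by
    intro m
    induction m with
    | zero =>
      intro p hp
      have : p = 0 := by
        ext d
        by_contra h
        exact absurd (hp d h) (Nat.not_lt_zero _)
      rw [this]
      exact S.zero_mem
    | succ m ih =>
      have hmono : ∀ d : σ →₀ ℕ, weight w d = m → monomial d (1 : K) ∈ S := by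
        intro d hd
        by_cases h : d ∈ M
        · exact Submodule.mem_sup_left (Submodule.subset_span ⟨d, h, rfl⟩)
        · simp only [hM, Set.mem_ofPred_eq, not_forall, not_lt] at h
          obtain ⟨s, hs⟩ := h
          set e : σ →₀ ℕ := d - Finsupp.single s (N s) with he
          have hde : e + Finsupp.single s (N s) = d := by
            rw [he]
            exact tsub_add_cancel_of_le (Finsupp.single_le_iff.2 hs)
          have h1 : (monomial d (1 : K)) = monomial e (1 : K) * X s ^ N s := by
            rw [X_pow_eq_monomial, monomial_mul, hde, one_mul]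
          have h2 : (monomial d (1 : K)) = monomial e (1 : K) * (X s ^ N s - q s) +
              monomial e (1 : K) * q s := by
            rw [h1]
            ring
          rw [h2]
          refine S.add_mem (ih ?_) (Submodule.mem_sup_right (J.mul_mem_left _ (hq s)))
          have h3 := low_mul (low_of_hom (isWeightedHomogeneous_monomial w e (1 : K) rfl)) (hlow s)
          have h4 : weight w e + w s * N s = m := by
            rw [← hd, ← hde, map_add, weight_single, smul_eq_mul, mul_comm (N s)]
          rwa [h4] at h3
      intro p hp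
      rw [p.as_sum]
      refine S.sum_mem fun d hd => ?_
      have h1 : monomial d (coeff d p) = (coeff d p) • monomial d (1 : K) := by
        rw [smul_monomial, smul_eq_mul, mul_one]
      rw [h1]
      refine S.smul_mem _ ?_
      have h2 := hp d (MvPolynomial.mem_support_iff.1 hd)
      rcases Nat.lt_succ_iff_lt_or_eq.1 h2 with h3 | h3
      · refine ih fun c hc => ?_
        rw [coeff_monomial] at hc
        split_ifs at hc with h4
        · rwa [← h4]
        · exact absurd rfl hc
      · exact hmono d h3
  have htop : S = ⊤ := by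
    rw [eq_top_iff]
    intro p _
    refine hspan (weightedTotalDegree w p + 1) fun d hd => Nat.lt_succ_of_le ?_
    exact le_weightedTotalDegree w (MvPolynomial.mem_support_iff.2 hd)
  -- finite dimension of the quotient
  have hfd : Module.Finite K (MvPolynomial σ K ⧸ J) := by
    have h1 : (Submodule.span K ((fun d => monomial d (1 : K)) '' M)).map
        (Ideal.Quotient.mkₐ K J).toLinearMap = ⊤ := by
      rw [eq_top_iff]
      rintro x -
      obtain ⟨p, rfl⟩ := Ideal.Quotient.mk_surjective x
      have h2 : p ∈ S := htop ▸ Submodule.mem_top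
      obtain ⟨y, hy, z, hz, rfl⟩ := Submodule.mem_sup.1 h2
      refine ⟨y, hy, ?_⟩
      have hz' : z ∈ J := hz
      simp [Ideal.Quotient.eq_zero_iff_mem.2 hz']
    rw [Module.finite_def, ← h1]
    refine Submodule.FG.map _ ?_
    exact Submodule.fg_span (hMfin.image _)
  have hint : ∀ s : σ, ∃ p : Polynomial K, p ≠ 0 ∧ Polynomial.aeval (X s : MvPolynomial σ K) p ∈ J := by
    intro s
    obtain ⟨p, hp, h1⟩ := Algebra.IsIntegral.isIntegral (R := K)
      (Ideal.Quotient.mk J (X s) : MvPolynomial σ K ⧸ J)
    refine ⟨p, hp.ne_zero, ?_⟩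
    rw [← Ideal.Quotient.eq_zero_iff_mem]
    have h2 : Ideal.Quotient.mk J (Polynomial.aeval (X s : MvPolynomial σ K) p) =
        Polynomial.aeval (Ideal.Quotient.mkₐ K J (X s)) p := by
      rw [Polynomial.aeval_algHom_apply]
      rfl
    rw [h2]
    exact h1
  choose p hp0 hp using hint
  have hfin : (Set.pi Set.univ fun s => {z : K | (p s).IsRoot z}).Finite := by
    refine Set.Finite.pi fun s => ?_
    exact Polynomial.finite_setOfPred_isRoot (hp0 s)
  refine hfin.subset fun v hv s _ => ?_
  have h1 : ∀ g ∈ J, eval v g = 0 := by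
    intro g hg
    have : J ≤ RingHom.ker (eval v) := by
      rw [hJ, Ideal.span_le]
      rintro _ ⟨i, rfl⟩
      exact hv i
    exact this hg
  have h2 := h1 _ (hp s)
  have h3 : eval v (Polynomial.aeval (X s : MvPolynomial σ K) (p s)) = (p s).eval (v s) := by
    have := Polynomial.aeval_algHom_apply (MvPolynomial.aeval v : MvPolynomial σ K →ₐ[K] K) (X s) (p s)
    rw [aeval_X, aeval_eq_ev] at this
    rw [← this, Polynomial.coe_aeval_eq_eval]
  rw [h3] at h2
  exact h2

end Zero

end Pool.Agent.Y193
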